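import Mathlib
import Pool.Agent.Q35.LamList

namespace Pool.Agent.Results.MP_8a294c_nt.Unbounded

open PowerSeries Pool.Agent.Q35 Pool.Agent.Q35.Lam Pool.Agent.Q35.Auto

/-- `c m n`, the coefficient of `x^n` in `(1-x)^(-m) ∏_{j ≥ 0} (1 - x^(2^j))^(-m)`; here
`1/(1-x^d)` is written as the series with coefficient `1` at the multiples of `d` and `0`
elsewhere, and the factors with `j > n` do not influence this coefficient. -/
noncomputable def c (m n : ℕ) : ℕ :=
  coeff n ((mk fun _ => (1 : ℕ)) ^ m *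
    (∏ i ∈ Finset.range (n + 1), mk fun j => if 2 ^ i ∣ j then (1 : ℕ) else 0) ^ m)

/-- `u m n = ν_2(q - 1)` where `q` is the odd part of `c m n` (and `ν_2(0) = ∞`) -/
noncomputable def u (m n : ℕ) : ℕ∞ :=
  emultiplicity 2 (c m n / 2 ^ padicValNat 2 (c m n) - 1)

/-! ### an abstract contraction lemma -/

section abstract_

variable {M : Type*} [AddCommGroup M] (W : M →+ M) (g : M)

theorem g_iter (hg : ∃ t : M, W g = g + (2 : ℤ) • t) (n : ℕ) :
    ∃ t : M, W^[n] g = g + (2 : ℤ) • t := by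
  induction n with
  | zero => exact ⟨0, by simp⟩
  | succ n ih =>
    obtain ⟨t, ht⟩ := ih
    obtain ⟨t', ht'⟩ := hg
    refine ⟨t' + W t, ?_⟩
    rw [Function.iterate_succ_apply', ht, map_add, map_zsmul, ht', smul_add]
    abel

theorem iter (hW : ∀ s, ∃ (a : ℤ) (t : M), W s = a • g + (2 : ℤ) • t)
    (hg : ∃ t : M, W g = g + (2 : ℤ) • t) (n : ℕ) :
    ∀ s, ∃ (a : ℤ) (t : M), W^[n + 1] s = a • W^[n] g + (2 : ℤ) ^ (n + 1) • t := by
  induction n with
  | zero => intro s; simpa using hW s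
  | succ n ih =>
    intro s
    obtain ⟨a, t, h⟩ := ih s
    obtain ⟨b, t', h'⟩ := hW t
    obtain ⟨t'', h''⟩ := g_iter W g hg (n + 1)
    refine ⟨a + 2 ^ (n + 1) * b, t' - b • t'', ?_⟩
    rw [Function.iterate_succ_apply', h, map_add, map_zsmul, map_zsmul, h',
      ← Function.iterate_succ_apply' W n g]
    generalize W^[n + 1] g = G at h''
    rw [h'']
    module

theorem gam (hW : ∀ s, ∃ (a : ℤ) (t : M), W s = a • g + (2 : ℤ) • t)
    (hg : ∃ t : M, W g = g + (2 : ℤ) • t) (n : ℕ) :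
    ∃ γ : ℤ, ∀ f, ∃ t : M, W^[n + 2] f = γ • W^[n + 1] f + (2 : ℤ) ^ (n + 1) • t := by
  obtain ⟨γ, t0, h0⟩ := iter W g hW hg n g
  refine ⟨γ, fun f => ?_⟩
  obtain ⟨a, t, h⟩ := iter W g hW hg n f
  refine ⟨a • t0 - γ • t + W t, ?_⟩
  rw [Function.iterate_succ_apply' W (n + 1) f, h, map_add, map_zsmul, map_zsmul,
    ← Function.iterate_succ_apply' W n g, h0]
  module

theorem gam_pow {γ : ℤ} {n : ℕ} (f : M)
    (h : ∀ f, ∃ t : M, W^[n + 2] f = γ • W^[n + 1] f + (2 : ℤ) ^ (n + 1) • t) (j : ℕ) :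
    ∃ t : M, W^[n + 1 + j] f = γ ^ j • W^[n + 1] f + (2 : ℤ) ^ (n + 1) • t := by
  induction j with
  | zero => exact ⟨0, by simp⟩
  | succ j ih =>
    obtain ⟨t, ht⟩ := ih
    obtain ⟨t1, ht1⟩ := h (W^[j] f)
    refine ⟨γ • t + t1, ?_⟩
    have e1 : W^[n + 1 + (j + 1)] f = W^[n + 2] (W^[j] f) := by
      rw [← Function.iterate_add_apply]; congr 1; omega
    have e2 : W^[n + 1] (W^[j] f) = W^[n + 1 + j] f := by
      rw [← Function.iterate_add_apply]
    rw [e1, ht1, e2, ht]
    module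

theorem lift {γ x c y : ℤ} (hγ : γ = 1 + 2 ^ 12 * (1 + 2 * c)) (hx : x = 1 + 2 ^ 12 * y) (n : ℕ) :
    (∃ c' : ℤ, γ ^ (2 ^ n) = 1 + 2 ^ (12 + n) * (1 + 2 * c')) ∧
    ∃ (j : ℕ) (q : ℤ), γ ^ j * x = 1 + 2 ^ (12 + n) * q := by
  induction n with
  | zero => exact ⟨⟨c, by simpa using hγ⟩, ⟨0, y, by simpa using hx⟩⟩
  | succ n ih =>
    obtain ⟨⟨c', hc'⟩, j, q, hq⟩ := ih
    refine ⟨⟨c' + 2 ^ (10 + n) * (1 + 2 * c') ^ 2, ?_⟩, ?_⟩
    · rw [pow_succ 2 n, pow_mul, hc']
      have e1 : (2 : ℤ) ^ (12 + (n + 1)) = 2 * 2 ^ (12 + n) := by rw [← add_assoc, pow_succ]; ring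
      have e2 : (2 : ℤ) ^ (12 + n) = 4 * 2 ^ (10 + n) := by
        rw [show 12 + n = (10 + n) + 2 by omega, pow_add]; ring
      rw [e1, e2]
      ring
    · rcases Int.even_or_odd' q with ⟨k, hk | hk⟩
      · refine ⟨j, k, ?_⟩
        rw [hq, hk, ← add_assoc 12 n 1, pow_succ]
        ring
      · refine ⟨j + 2 ^ n, 1 + c' + k + 2 ^ (11 + n) * (1 + 2 * c') * q, ?_⟩
        rw [pow_add, mul_right_comm, hq, hc']
        have e1 : (2 : ℤ) ^ (12 + (n + 1)) = 2 * 2 ^ (12 + n) := by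
          rw [← add_assoc, pow_succ]; ring
        have e2 : (2 : ℤ) ^ (12 + n) = 2 * 2 ^ (11 + n) := by
          rw [show 12 + n = (11 + n) + 1 by omega, pow_succ]; ring
        rw [e1, e2, hk]
        ring

theorem unbdd (hW : ∀ s, ∃ (a : ℤ) (t : M), W s = a • g + (2 : ℤ) • t)
    (hg : ∃ t : M, W g = g + (2 : ℤ) • t) (ε : M →+ ℤ) (F f : M)
    (hF : ∃ t : M, W F = (4097 : ℤ) • F + (2 ^ 13 : ℤ) • t) (hε : ε F = 1)
    (hf : ∃ t : M, f = (2 ^ 11 : ℤ) • F + (2 ^ 24 : ℤ) • t) (B : ℕ) :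
    ∃ (r : ℕ) (q : ℤ), ε (W^[r] f) = 2 ^ 11 * (1 + 2 ^ B * q) := by
  have hzs : ∀ (a : ℤ) (x : M), ε (a • x) = a * ε x := by
    intro a x; rw [map_zsmul, smul_eq_mul]
  have hWF : ∀ r : ℕ, ∃ t : M, W^[r] F = (4097 : ℤ) ^ r • F + (2 ^ 13 : ℤ) • t := by
    intro r
    induction r with
    | zero => exact ⟨0, by simp⟩
    | succ r ih =>
      obtain ⟨t, ht⟩ := ih
      obtain ⟨t', ht'⟩ := hF
      refine ⟨(4097 : ℤ) ^ r • t' + W t, ?_⟩
      rw [Function.iterate_succ_apply', ht, map_add, map_zsmul, map_zsmul, ht']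
      module
  have hpow : ∀ r : ℕ, ∃ y : ℤ, (4097 : ℤ) ^ r = 1 + 2 ^ 12 * y := by
    intro r
    induction r with
    | zero => exact ⟨0, by norm_num⟩
    | succ r ih =>
      obtain ⟨y, hy⟩ := ih
      exact ⟨1 + 4097 * y, by rw [pow_succ, hy]; ring⟩
  have hεf : ∀ r : ℕ, ∃ y : ℤ, ε (W^[r] f) = 2 ^ 11 * (1 + 2 ^ 12 * y) := by
    intro r
    obtain ⟨t, ht⟩ := hWF r
    obtain ⟨y, hy⟩ := hpow r
    obtain ⟨t', ht'⟩ := hf
    have h1 : W^[r] f = (2 ^ 11 : ℤ) • W^[r] F + (2 ^ 24 : ℤ) • W^[r] t' := by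
      conv_lhs => rw [ht']
      rw [iterate_map_add, iterate_map_zsmul, iterate_map_zsmul]
    refine ⟨y + 2 * ε t + 2 * ε (W^[r] t'), ?_⟩
    rw [h1, map_add, hzs, hzs, ht, map_add, hzs, hzs, hε, hy]
    ring
  -- the level
  obtain ⟨γ, hγ⟩ := gam W g hW hg (B + 23)
  have hγ1 : ∃ c : ℤ, γ = 1 + 2 ^ 12 * (1 + 2 * c) := by
    obtain ⟨t, ht⟩ := hγ F
    obtain ⟨t1, h1⟩ := hWF (B + 23 + 2)
    obtain ⟨t2, h2⟩ := hWF (B + 23 + 1)
    have h3 := congrArg ε ht
    rw [map_add, hzs, hzs, h1, h2, map_add, map_add, hzs, hzs, hzs, hzs, hε] at h3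
    have h4 : (2 ^ 13 : ℤ) ∣ (4097 : ℤ) ^ (B + 23 + 1) * (γ - 4097) := by
      refine ⟨ε t1 - γ * ε t2 - 2 ^ (B + 11) * ε t, ?_⟩
      have e1 : (2 : ℤ) ^ (B + 23 + 1) = 2 ^ 13 * 2 ^ (B + 11) := by
        rw [← pow_add]; congr 1; omega
      have e2 : (4097 : ℤ) ^ (B + 23 + 2) = 4097 * 4097 ^ (B + 23 + 1) := by
        rw [pow_succ _ (B + 23 + 1)]; ring
      rw [e1, e2] at h3
      linear_combination -h3
    have h5 : IsCoprime (2 ^ 13 : ℤ) ((4097 : ℤ) ^ (B + 23 + 1)) := by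
      apply IsCoprime.pow
      rw [Int.isCoprime_iff_gcd_eq_one]; norm_num
    obtain ⟨c, hc⟩ := h5.dvd_of_dvd_mul_left h4
    exact ⟨c, by linear_combination hc⟩
  obtain ⟨c, hc⟩ := hγ1
  obtain ⟨y, hy⟩ := hεf (B + 23 + 1)
  obtain ⟨_, j, q, hq⟩ := lift hc rfl (y := y) B
  obtain ⟨t, ht⟩ := gam_pow W f hγ j
  refine ⟨B + 23 + 1 + j, 2 ^ 12 * q + 2 ^ 13 * ε t, ?_⟩
  rw [ht, map_add, hzs, hzs, hy]
  have e1 : (2 : ℤ) ^ (B + 23 + 1) = 2 ^ 24 * 2 ^ B := by rw [← pow_add]; congr 1; omega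
  have e2 : (2 : ℤ) ^ (12 + B) = 2 ^ 12 * 2 ^ B := by rw [← pow_add]
  rw [e1]
  rw [e2] at hq
  linear_combination 2 ^ 11 * hq

end abstract_

/-! ### numerical data -/

/-- the modulus -/
def N : ℕ := 16777216

/-- data -/
def A0 : (List ℕ × List ℕ) × (List ℕ × List ℕ) :=
  (([1], [2]), ([0, 1], [1, 2]))

/-- data -/
def B1 : (List ℕ × List ℕ) × (List ℕ × List ℕ) :=
  (([1, 2], [4, 4]), ([0, 2, 2], [1, 6, 4]))

/-- data -/
def A1 : (List ℕ × List ℕ) × (List ℕ × List ℕ) :=
  (([1, 6, 4], [6, 16, 8]), ([0, 3, 8, 4], [1, 12, 20, 8]))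

/-- data -/
def B2 : (List ℕ × List ℕ) × (List ℕ × List ℕ) :=
  (([1, 30, 140, 224, 144, 32], [12, 140, 448, 576, 320, 64]), ([0, 6, 70, 224, 288, 160, 32], [1, 42, 280, 672, 720, 352, 64]))

/-- data -/
def A2 : (List ℕ × List ℕ) × (List ℕ × List ℕ) :=
  (([1, 42, 280, 672, 720, 352, 64], [14, 224, 1008, 1920, 1760, 768, 128]), ([0, 7, 112, 504, 960, 880, 384, 64], [1, 56, 504, 1680, 2640, 2112, 832, 128]))

/-- data -/
def B3 : (List ℕ × List ℕ) × (List ℕ × List ℕ) :=
  (([1, 182, 5460, 64064, 388960, 1400256, 3224832, 4961280, 5209344, 3745280, 1813504, 565248, 102400, 8192], [28, 1820, 34944, 311168, 1555840, 4837248, 9922560, 13891584, 13483008, 9067520, 4145152, 1228800, 212992, 16384]), ([0, 14, 910, 17472, 155584, 777920, 2418624, 4961280, 6945792, 6741504, 4533760, 2072576, 614400, 106496, 8192], [1, 210, 7280, 99008, 700128, 2956096, 8062080, 14883840, 2323712, 451072, 10881024, 4710400, 1331200, 221184, 16384]))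

/-- data -/
def A3 : (List ℕ × List ℕ) × (List ℕ × List ℕ) :=
  (([1, 210, 7280, 99008, 700128, 2956096, 8062080, 14883840, 2323712, 451072, 10881024, 4710400, 1331200, 221184, 16384], [30, 2240, 49504, 509184, 2956096, 10749440, 9269504, 10104832, 1353216, 9969664, 9129984, 10649600, 2875392, 458752, 32768]), ([0, 15, 1120, 24752, 254592, 1478048, 5374720, 13023360, 5052416, 9065216, 4984832, 12953600, 5324800, 1437696, 229376, 16384], [1, 240, 9520, 148512, 1209312, 5912192, 2034304, 7376128, 12428544, 1804288, 4073472, 13840384, 11980800, 3096576, 475136, 32768]))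

/-- data -/
def B4 : (List ℕ × List ℕ) × (List ℕ × List ℕ) :=
  (([1, 870, 125860, 7249536, 4042688, 1796480, 3036672, 7534592, 12242432, 4310016, 3565568, 16596992, 13377536, 16384, 917504, 8912896, 1376256, 7208960, 12845056, 12582912, 2097152, 4194304], [60, 17980, 1611008, 1243904, 718592, 9906944, 15527936, 5853184, 13281280, 3565568, 10387456, 6651904, 1998848, 9994240, 1048576, 3145728, 786432, 4980736, 8388608, 8388608, 8388608, 8388608]), ([0, 30, 8990, 805504, 621952, 359296, 13342080, 16152576, 2926592, 6640640, 1782784, 5193728, 3325952, 999424, 4997120, 8912896, 1572864, 393216, 2490368, 12582912, 4194304, 4194304, 4194304], [1, 930, 143840, 8860544, 5286592, 2515072, 12943616, 6285312, 1318400, 814080, 7131136, 10207232, 3252224, 2015232, 10911744, 9961472, 4521984, 7995392, 1048576, 4194304, 10485760, 12582912, 8388608]))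

/-- data -/
def A4 : (List ℕ × List ℕ) × (List ℕ × List ℕ) :=
  (([1, 930, 143840, 8860544, 5286592, 2515072, 12943616, 6285312, 1318400, 814080, 7131136, 10207232, 3252224, 2015232, 10911744, 9961472, 4521984, 7995392, 1048576, 4194304, 10485760, 12582912, 8388608], [62, 19840, 1898688, 2187776, 11291776, 14937088, 7860736, 1646592, 15918080, 5193728, 7872512, 10289152, 8503296, 14024704, 6094848, 6291456, 9830400, 4194304, 10485760, 0, 12582912]), ([0, 31, 9920, 949344, 9482496, 5645888, 15857152, 12318976, 9211904, 7959040, 2596864, 12324864, 13533184, 4251648, 7012352, 3047424, 11534336, 4915200, 10485760, 13631488, 8388608, 14680064, 0, 8388608], [1, 992, 163680, 10759232, 7474368, 13806848, 11103488, 14146048, 2964992, 16732160, 12324864, 1302528, 13541376, 10518528, 8159232, 16056320, 10813440, 1048576, 5242880, 14680064, 10485760, 8388608, 8388608]))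

/-- data -/
def B5 : (List ℕ × List ℕ) × (List ℕ × List ℕ) :=
  (([1, 3782, 2382660, 12592384, 9364352, 7752448, 10099712, 2109440, 15166464, 12150784, 13766656, 950272, 409600, 9732096, 15990784, 3145728, 14548992, 1310720, 14155776, 8388608, 4194304, 8388608], [124, 158844, 10664448, 15754752, 14310912, 10552832, 12738560, 2629632, 11407360, 10457088, 12910592, 196608, 2424832, 3735552, 6291456, 2097152, 4718592, 13107200]), ([0, 62, 79422, 13720832, 16265984, 7155456, 13665024, 6369280, 9703424, 14092288, 13617152, 6455296, 98304, 1212416, 10256384, 3145728, 9437184, 2359296, 14942208, 8388608, 8388608, 8388608, 8388608], [1, 3906, 2541504, 6479616, 8341888, 5286144, 3875328, 14848000, 1018880, 6780928, 7446528, 13860864, 606208, 12156928, 2949120, 9437184, 16646144, 6029312, 10485760, 8388608, 4194304, 8388608]))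

/-- data -/
def A5 : (List ℕ × List ℕ) × (List ℕ × List ℕ) :=
  (([1, 3906, 2541504, 6479616, 8341888, 5286144, 3875328, 14848000, 1018880, 6780928, 7446528, 13860864, 606208, 12156928, 2949120, 9437184, 16646144, 6029312, 10485760, 8388608, 4194304, 8388608], [126, 166656, 15747456, 11936768, 14217472, 4347904, 3712000, 15548416, 13445120, 7241728, 11026432, 11141120, 3637248, 11272192, 12189696, 4194304, 4456448, 8388608, 4194304, 0, 8388608]), ([0, 63, 83328, 16262336, 5968384, 15497344, 2173952, 10244608, 7774208, 15111168, 3620864, 13901824, 13959168, 1818624, 5636096, 6094848, 2097152, 2228224, 4194304, 2097152, 0, 12582912], [1, 4032, 2708160, 5449856, 3501440, 2726400, 8223232, 1782784, 16567296, 3448832, 14688256, 8110080, 11747328, 15794176, 14221312, 4849664, 4063232, 10485760, 2097152, 12582912, 4194304]))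

/-- data -/
def B6 : (List ℕ × List ℕ) × (List ℕ × List ℕ) :=
  (([1, 15750, 7784068, 3009024, 8771328, 12613120, 2619392, 6905856, 14817280, 14307328, 2170880, 851968, 13926400, 10027008, 4718592, 14680064, 786432, 524288, 15728640, 0, 8388608], [252, 1333500, 2601984, 3050496, 1735680, 13683712, 6733824, 15089664, 12525568, 9052160, 15335424, 10878976, 2752512, 13762560, 12582912, 4194304, 5242880, 5242880]), ([0, 126, 666750, 1300992, 9913856, 9256448, 6841856, 3366912, 7544832, 6262784, 4526080, 7667712, 13828096, 9764864, 6881280, 14680064, 10485760, 11010048, 2621440], [1, 16002, 9117568, 5611008, 11821824, 14348800, 16303104, 13639680, 13129728, 10055680, 11223040, 16187392, 8028160, 12779520, 1703936, 10485760, 4980736, 5767168, 4194304, 0, 8388608]))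

/-- data -/
def A6 : (List ℕ × List ℕ) × (List ℕ × List ℕ) :=
  (([1, 16002, 9117568, 5611008, 11821824, 14348800, 16303104, 13639680, 13129728, 10055680, 11223040, 16187392, 8028160, 12779520, 1703936, 10485760, 4980736, 5767168, 4194304, 0, 8388608], [254, 1365504, 4059904, 14272512, 8602112, 8826880, 5785600, 8814592, 5230592, 12386304, 4227072, 9699328, 2031616, 5767168, 15990784, 8388608, 15204352, 0, 8388608]), ([0, 127, 682752, 10418560, 15524864, 4301056, 4413440, 2892800, 4407296, 2615296, 14581760, 2113536, 13238272, 1015808, 2883584, 16384000, 4194304, 15990784, 8388608, 4194304, 0, 8388608], [1, 16256, 10483072, 9670912, 9317120, 6173696, 8352768, 2648064, 5167104, 15286272, 6832128, 3637248, 950272, 14811136, 7471104, 9699328, 13369344, 4194304, 4194304, 8388608, 8388608]))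

/-- data -/
def B7 : (List ℕ × List ℕ) × (List ℕ × List ℕ) :=
  (([1, 64262, 380164, 2249728, 16510464, 8416256, 978944, 7782400, 15806464, 13803520, 7749632, 14286848, 4784128, 15859712, 1048576, 12582912, 5767168, 9437184, 14680064], [508, 10924540, 12085248, 11802624, 7075840, 16553984, 5603328, 2392064, 671744, 4210688, 5505024, 13369344, 13893632, 2359296, 8388608, 8388608, 10485760, 10485760]), ([0, 254, 5462270, 6042624, 5901312, 3537920, 16665600, 2801664, 1196032, 8724480, 2105344, 11141120, 15073280, 15335424, 9568256, 12582912, 4194304, 13631488, 13631488], [1, 64770, 11304704, 14334976, 11535872, 15492096, 755712, 13385728, 1421312, 14475264, 11960320, 3014656, 1376256, 12976128, 3407872, 4194304, 14155776, 3145728, 8388608]))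

/-- data -/
def A7 : (List ℕ × List ℕ) × (List ℕ × List ℕ) :=
  (([1, 64770, 11304704, 14334976, 11535872, 15492096, 755712, 13385728, 1421312, 14475264, 11960320, 3014656, 1376256, 12976128, 3407872, 4194304, 14155776, 3145728, 8388608], [510, 11054080, 1140224, 6918144, 13370368, 13983744, 7114752, 12386304, 3514368, 16384000, 12648448, 2621440, 16646144, 11534336, 15204352, 0, 5242880]), ([0, 255, 5527040, 570112, 3459072, 15073792, 15380480, 3557376, 14581760, 10145792, 16580608, 6324224, 1310720, 16711680, 5767168, 15990784, 8388608, 11010048, 0, 8388608], [1, 65280, 5581568, 15475200, 1676800, 12085248, 14739456, 3723264, 13807616, 1212416, 11567104, 15663104, 3997696, 12845056, 14942208, 2621440, 14155776, 8388608, 8388608]))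

/-- data -/
def B8 : (List ℕ × List ℕ) × (List ℕ × List ℕ) :=
  (([1, 259590, 7117316, 14592000, 3726336, 8312832, 10084352, 8224768, 9854976, 1916928, 12353536, 11796480, 1179648, 14942208, 2097152, 8388608, 11534336, 2097152, 12582912], [1020, 4547580, 1363968, 12857344, 11792384, 6631424, 13303808, 11075584, 4489216, 3178496, 11010048, 9961472, 11010048, 4718592, 0, 0, 4194304, 4194304]), ([0, 510, 10662398, 681984, 14817280, 5896192, 3315712, 6651904, 13926400, 2244608, 9977856, 5505024, 13369344, 13893632, 2359296, 8388608, 8388608, 10485760, 10485760], [1, 260610, 11664896, 15955968, 16583680, 3328000, 16715776, 4751360, 4153344, 6406144, 15532032, 6029312, 11141120, 9175040, 6815744, 8388608, 11534336, 6291456]))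

/-- data -/
def A8 : (List ℕ × List ℕ) × (List ℕ × List ℕ) :=
  (([1, 260610, 11664896, 15955968, 16583680, 3328000, 16715776, 4751360, 4153344, 6406144, 15532032, 6029312, 11141120, 9175040, 6815744, 8388608, 11534336, 6291456], [1022, 5068800, 7916544, 11214848, 11405312, 13287424, 13180928, 3801088, 12795904, 15990784, 8519680, 5242880, 16515072, 6291456, 13631488, 0, 10485760]), ([0, 511, 10923008, 12346880, 13996032, 5702656, 6643712, 6590464, 1900544, 6397952, 16384000, 4259840, 2621440, 8257536, 11534336, 15204352, 0, 5242880], [1, 261632, 16733696, 7095296, 11021312, 14733312, 13225984, 1155072, 7954432, 2424832, 14745600, 14548992, 16384000, 8912896, 13107200, 5242880, 11534336]))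

/-- data -/
def B9 : (List ℕ × List ℕ) × (List ℕ × List ℕ) :=
  (([1, 1043462, 6108164, 2445312, 7714816, 16101376, 2342912, 3866624, 16564224, 1736704, 12124160, 6815744, 2359296, 13107200, 4194304, 0, 6291456, 4194304, 8388608], [2044, 6998012, 12165120, 16277504, 14147584, 8019968, 1441792, 13762560, 4784128, 2162688, 5242880, 3145728, 5242880, 9437184, 0, 0, 8388608, 8388608]), ([0, 1022, 3499006, 6082560, 8138752, 7073792, 4009984, 720896, 6881280, 10780672, 9469952, 11010048, 9961472, 11010048, 4718592, 0, 0, 4194304, 4194304], [1, 1045506, 13106176, 14610432, 7215104, 13471744, 10362880, 5308416, 13549568, 6520832, 14286848, 12058624, 5505024, 1572864, 13631488, 0, 6291456, 12582912]))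

/-- data -/
def A9 : (List ℕ × List ℕ) × (List ℕ × List ℕ) :=
  (([1, 1045506, 13106176, 14610432, 7215104, 13471744, 10362880, 5308416, 13549568, 6520832, 14286848, 12058624, 5505024, 1572864, 13631488, 0, 6291456, 12582912], [2046, 9089024, 4823040, 11943936, 11800576, 1409024, 5390336, 7602176, 15106048, 15204352, 262144, 10485760, 16252928, 12582912, 10485760, 0, 4194304]), ([0, 1023, 4544512, 2411520, 5971968, 14288896, 704512, 11083776, 12189696, 7553024, 15990784, 8519680, 5242880, 16515072, 6291456, 13631488, 0, 10485760], [1, 1047552, 5417984, 2656256, 2381824, 8495104, 11771904, 10698752, 4374528, 4849664, 12713984, 12320768, 15990784, 1048576, 9437184, 10485760, 6291456]))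

/-- data -/
def s1 : ℕ × List ℕ :=
  (1, [2093058, 1746944, 489472, 9596928, 5189632, 5357568, 16007168, 1146880, 11370496, 10223616, 7602176, 4718592, 2621440, 6291456, 10485760, 12582912, 12582912])

/-- data -/
def s2 : ℕ × List ℕ :=
  (2095104, [9644032, 10778624, 11735040, 544768, 8798208, 7585792, 15630336, 5406720, 6553600, 9175040, 12058624, 14155776, 10485760, 6291456, 4194304, 4194304])

/-- data -/
def s3 : ℕ × List ℕ :=
  (2095104, [11909120, 2580480, 6963200, 5636096, 2883584, 11534336, 10485760])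

/-- data -/
def s4 : ℕ × List ℕ :=
  (2095104, [1636352, 9207808, 524288, 10485760, 4194304])

/-- data -/
def s5 : ℕ × List ℕ :=
  (2095104, [8386560, 15728640, 10485760, 4194304, 4194304])

/-- data -/
def s6 : ℕ × List ℕ :=
  (2048, [12584960, 10485760, 6291456, 4194304, 12582912])

/-- data -/
def f0 : ℕ × List ℕ :=
  (1, [6145, 5120, 3072, 2048, 6144])

/-- data -/
def f1 : ℕ × List ℕ :=
  (1, [14682113, 9800704, 2423808, 9566208, 10983424, 11067392, 16392192, 2670592, 14073856, 13500416, 3801088, 10747904, 1310720, 3145728, 13631488, 6291456, 6291456])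

/-- data -/
def f2 : ℕ × List ℕ :=
  (14684159, [2709503, 6925312, 14128128, 1267712, 11708416, 9887744, 9723904, 13221888, 9256960, 12451840, 8257536, 3407872, 9175040, 3145728, 7340032, 14680064, 10485760])

/-- data -/
def f3 : ℕ × List ℕ :=
  (15282177, [1189889, 4977664, 15379456, 436224, 5855232, 12132352, 761856, 3555328, 7520256, 4325376, 8519680, 13369344, 7602176, 13631488, 9437184, 2097152, 6291456])

theorem cB1 : (app N A0 A0.1, app N A0 A0.2) = B1 := by decide +kernel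
theorem cA1 : (app N B1 A0.1, app N B1 A0.2) = A1 := by decide +kernel
theorem cB2 : (app N A1 A1.1, app N A1 A1.2) = B2 := by decide +kernel
theorem cA2 : (app N B2 A0.1, app N B2 A0.2) = A2 := by decide +kernel
theorem cB3 : (app N A2 A2.1, app N A2 A2.2) = B3 := by decide +kernel
theorem cA3 : (app N B3 A0.1, app N B3 A0.2) = A3 := by decide +kernel
theorem cB4 : (app N A3 A3.1, app N A3 A3.2) = B4 := by decide +kernel
theorem cA4 : (app N B4 A0.1, app N B4 A0.2) = A4 := by decide +kernel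
theorem cB5 : (app N A4 A4.1, app N A4 A4.2) = B5 := by decide +kernel
theorem cA5 : (app N B5 A0.1, app N B5 A0.2) = A5 := by decide +kernel
theorem cB6 : (app N A5 A5.1, app N A5 A5.2) = B6 := by decide +kernel
theorem cA6 : (app N B6 A0.1, app N B6 A0.2) = A6 := by decide +kernel
theorem cB7 : (app N A6 A6.1, app N A6 A6.2) = B7 := by decide +kernel
theorem cA7 : (app N B7 A0.1, app N B7 A0.2) = A7 := by decide +kernel
theorem cB8 : (app N A7 A7.1, app N A7 A7.2) = B8 := by decide +kernel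
theorem cA8 : (app N B8 A0.1, app N B8 A0.2) = A8 := by decide +kernel
theorem cB9 : (app N A8 A8.1, app N A8 A8.2) = B9 := by decide +kernel
theorem cA9 : (app N B9 A0.1, app N B9 A0.2) = A9 := by decide +kernel
theorem t1 : TL N A9 0 1 [] = s1 := by decide +kernel
theorem t2 : TL N A9 1 s1.1 s1.2 = s2 := by decide +kernel
theorem t3 : TL N A9 0 s2.1 s2.2 = s3 := by decide +kernel
theorem t4 : TL N A9 0 s3.1 s3.2 = s4 := by decide +kernel
theorem t5 : TL N A9 0 s4.1 s4.2 = s5 := by decide +kernel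
theorem t6 : TL N A9 1 s5.1 s5.2 = s6 := by decide +kernel
theorem w1 : TL N A9 0 f0.1 f0.2 = f1 := by decide +kernel
theorem w2 : TL N A9 1 f1.1 f1.2 = f2 := by decide +kernel
theorem w3 : TL N A9 1 f2.1 f2.2 = f3 := by decide +kernel

theorem toM_A9 : toM N A9 = Nw (ZMod N) ^ 1023 := by
  have h0 : toM N A0 = Nw (ZMod N) := by
    have hC2 : (Polynomial.C 2 : Polynomial (ZMod N)) = 2 := rfl
    ext1 i j
    fin_cases i <;> fin_cases j <;> simp [toM, Nw, A0, ofL, hC2]
    ring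
  have k1 : toM N A1 = Nw (ZMod N) ^ 3 := by
    rw [← comp_spec _ _ _ cA1, ← comp_spec _ _ _ cB1, h0, ← sq, ← pow_succ]
  have k2 : toM N A2 = Nw (ZMod N) ^ 7 := by
    rw [← comp_spec _ _ _ cA2, ← comp_spec _ _ _ cB2, h0, k1, ← pow_add, ← pow_succ]
  have k3 : toM N A3 = Nw (ZMod N) ^ 15 := by
    rw [← comp_spec _ _ _ cA3, ← comp_spec _ _ _ cB3, h0, k2, ← pow_add, ← pow_succ]
  have k4 : toM N A4 = Nw (ZMod N) ^ 31 := by
    rw [← comp_spec _ _ _ cA4, ← comp_spec _ _ _ cB4, h0, k3, ← pow_add, ← pow_succ]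
  have k5 : toM N A5 = Nw (ZMod N) ^ 63 := by
    rw [← comp_spec _ _ _ cA5, ← comp_spec _ _ _ cB5, h0, k4, ← pow_add, ← pow_succ]
  have k6 : toM N A6 = Nw (ZMod N) ^ 127 := by
    rw [← comp_spec _ _ _ cA6, ← comp_spec _ _ _ cB6, h0, k5, ← pow_add, ← pow_succ]
  have k7 : toM N A7 = Nw (ZMod N) ^ 255 := by
    rw [← comp_spec _ _ _ cA7, ← comp_spec _ _ _ cB7, h0, k6, ← pow_add, ← pow_succ]
  have k8 : toM N A8 = Nw (ZMod N) ^ 511 := by
    rw [← comp_spec _ _ _ cA8, ← comp_spec _ _ _ cB8, h0, k7, ← pow_add, ← pow_succ]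
  have k9 : toM N A9 = Nw (ZMod N) ^ 1023 := by
    rw [← comp_spec _ _ _ cA9, ← comp_spec _ _ _ cB9, h0, k8, ← pow_add, ← pow_succ]
  exact k9

theorem step (d : Fin 2) (s t : ℕ × List ℕ) (h : TL N A9 d s.1 s.2 = t) :
    T 1023 d (pr N s.1 s.2) = pr N t.1 t.2 := by
  rw [TL_spec 1023 A9 toM_A9, h]

/-- integral lift -/
noncomputable def ofZ : List ℕ → Polynomial ℤ
  | [] => 0
  | a :: l => Polynomial.C (a : ℤ) + Polynomial.X * ofZ l

theorem ofZ_map (n : ℕ) (l : List ℕ) :
    (ofZ l).map (Int.castRingHom (ZMod n)) = ofL n l := by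
  induction l with
  | nil => simp [ofZ, ofL]
  | cons a l ih => simp [ofZ, ofL, ih]

theorem ker_mp (n : ℕ) (s : ℤ × Polynomial ℤ) (h : mp (Int.castRingHom (ZMod n)) s = 0) :
    ∃ t : ℤ × Polynomial ℤ, s = (n : ℤ) • t := by
  rw [mp_apply] at h
  have h1 : (Int.castRingHom (ZMod n)) s.1 = 0 := congrArg Prod.fst h
  have h2 : s.2.map (Int.castRingHom (ZMod n)) = 0 := congrArg Prod.snd h
  obtain ⟨a, ha⟩ := (ZMod.intCast_zmod_eq_zero_iff_dvd s.1 n).mp h1
  have h3 : Polynomial.C (n : ℤ) ∣ s.2 := by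
    rw [Polynomial.C_dvd_iff_dvd_coeff]
    intro i
    rw [← ZMod.intCast_zmod_eq_zero_iff_dvd]
    have := congrArg (fun p => Polynomial.coeff p i) h2
    simpa using this
  obtain ⟨q, hq⟩ := h3
  refine ⟨(a, q), Prod.ext ?_ ?_⟩
  · rw [Prod.smul_fst, ha, smul_eq_mul]
  · rw [Prod.smul_snd, hq, zsmul_eq_mul]; simp

/-- the operator `W` -/
noncomputable def W : ℤ × Polynomial ℤ →+ ℤ × Polynomial ℤ :=
  (TA ℤ 1023 1).comp ((TA ℤ 1023 1).comp (TA ℤ 1023 0))

theorem TA_apply (m : ℕ) (d : Fin 2) (s : ℤ × Polynomial ℤ) : TA ℤ m d s = T m d s := rfl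

theorem W_apply (s : ℤ × Polynomial ℤ) : W s = T 1023 1 (T 1023 1 (T 1023 0 s)) := by
  rw [W, AddMonoidHom.comp_apply, AddMonoidHom.comp_apply, TA_apply, TA_apply, TA_apply]

theorem T1023 (s : ZMod 2 × Polynomial (ZMod 2)) :
    T 1023 1 s = (s.2.coeff 0, Polynomial.C (s.2.coeff 0)) ∧
    T 1023 0 s = (s.1, Polynomial.C (s.2.coeff 0)) := by
  have h := T_two (R := ZMod 2) rfl 511 s
  rwa [show 2 * 511 + 1 = 1023 by norm_num] at h

theorem hW (s : ℤ × Polynomial ℤ) : ∃ (a : ℤ) (t : ℤ × Polynomial ℤ),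
    W s = a • (1, Polynomial.C 1) + (2 : ℤ) • t := by
  have h1 : mp (Int.castRingHom (ZMod 2)) (W s - (s.2.coeff 0) • (1, Polynomial.C 1)) = 0 := by
    rw [map_sub, map_zsmul, W_apply, ← T_mp, ← T_mp, ← T_mp, (T1023 _).1,
      (T1023 _).1, (T1023 _).2, mp_apply, mp_apply]
    apply Prod.ext
    · simp
    · simp
  obtain ⟨t, ht⟩ := ker_mp 2 _ h1
  exact ⟨s.2.coeff 0, t, by rw [eq_add_of_sub_eq ht, add_comm]; rfl⟩

theorem hg : ∃ t : ℤ × Polynomial ℤ, W (1, Polynomial.C 1) = (1, Polynomial.C 1) + (2 : ℤ) • t := by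
  have h1 : mp (Int.castRingHom (ZMod 2)) (W (1, Polynomial.C 1) - (1, Polynomial.C 1)) = 0 := by
    rw [map_sub, W_apply, ← T_mp, ← T_mp, ← T_mp, (T1023 _).1,
      (T1023 _).1, (T1023 _).2, mp_apply]
    apply Prod.ext
    · simp
    · simp
  obtain ⟨t, ht⟩ := ker_mp 2 _ h1
  exact ⟨t, by rw [eq_add_of_sub_eq ht, add_comm]; rfl⟩

/-- the approximate eigenvector -/
noncomputable def F : ℤ × Polynomial ℤ := (1, ofZ f0.2)

/-- the starting vector `T_34 (1, 0)` -/
noncomputable def f : ℤ × Polynomial ℤ :=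
  T 1023 1 (T 1023 0 (T 1023 0 (T 1023 0 (T 1023 1 (T 1023 0 (1, 0))))))

theorem hf : ∃ t : ℤ × Polynomial ℤ, f = (2 ^ 11 : ℤ) • F + (2 ^ 24 : ℤ) • t := by
  have h1 : mp (Int.castRingHom (ZMod N)) (f - (2 ^ 11 : ℤ) • F) = 0 := by
    have h0 : mp (Int.castRingHom (ZMod N)) (1, 0) = pr N 1 [] := by
      rw [mp_apply]; simp [pr, ofL]
    rw [map_sub, map_zsmul, f, ← T_mp, ← T_mp, ← T_mp, ← T_mp, ← T_mp, ← T_mp, h0,
      step 0 (1, []) s1 t1, step 1 s1 s2 t2, step 0 s2 s3 t3, step 0 s3 s4 t4, step 0 s4 s5 t5,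
      step 1 s5 s6 t6, mp_apply, F, ofZ_map, sub_eq_zero]
    apply Prod.ext
    · simp [pr, s6]
    · rw [Prod.smul_snd]
      have e1 : s6.2 = addMul N 2048 f0.2 [] := by decide +kernel
      rw [pr, e1, ofL_addMul, zsmul_eq_mul]
      simp only [ofL, add_zero]
      norm_num
      rw [show (Polynomial.C 2048 : Polynomial (ZMod N)) = 2048 from rfl]
  obtain ⟨t, ht⟩ := ker_mp N _ h1
  refine ⟨t, ?_⟩
  rw [eq_add_of_sub_eq ht, add_comm]
  rfl

theorem hF : ∃ t : ℤ × Polynomial ℤ, W F = (4097 : ℤ) • F + (2 ^ 13 : ℤ) • t := by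
  have h1 : mp (Int.castRingHom (ZMod N)) (W F) = pr N f3.1 f3.2 := by
    have h0 : mp (Int.castRingHom (ZMod N)) F = pr N f0.1 f0.2 := by
      rw [mp_apply, F, ofZ_map, pr]
      simp [f0]
    rw [W_apply, ← T_mp, ← T_mp, ← T_mp, h0, step 0 f0 f1 w1, step 1 f1 f2 w2, step 1 f2 f3 w3]
  have hd : 2 ^ 13 ∣ N := ⟨2 ^ 11, by norm_num [N]⟩
  have h2 : mp (Int.castRingHom (ZMod (2 ^ 13))) (W F) = pr (2 ^ 13) f3.1 f3.2 := by
    have h3 := congrArg (mp (ZMod.castHom hd (ZMod (2 ^ 13)))) h1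
    have h4 : ∀ s : ℤ × Polynomial ℤ, mp (ZMod.castHom hd (ZMod (2 ^ 13)))
        (mp (Int.castRingHom (ZMod N)) s) = mp (Int.castRingHom (ZMod (2 ^ 13))) s := by
      intro s
      rw [mp_apply, mp_apply, mp_apply, Polynomial.map_map]
      have : (ZMod.castHom hd (ZMod (2 ^ 13))).comp (Int.castRingHom (ZMod N)) =
          Int.castRingHom (ZMod (2 ^ 13)) := RingHom.ext_int _ _
      rw [this, ← this]
      rfl
    have h5 : ∀ l : List ℕ, (ofL N l).map (ZMod.castHom hd (ZMod (2 ^ 13))) = ofL (2 ^ 13) l := by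
      intro l
      rw [← ofZ_map, ← ofZ_map, Polynomial.map_map]
      congr 1
      exact RingHom.ext_int _ _
    rw [h4] at h3
    rw [h3, mp_apply, pr, pr, h5]
    simp
  have h6 : mp (Int.castRingHom (ZMod (2 ^ 13))) (W F - (4097 : ℤ) • F) = 0 := by
    rw [map_sub, map_zsmul, h2, mp_apply, F, ofZ_map, sub_eq_zero]
    apply Prod.ext
    · simp only [pr, zsmul_eq_mul]
      decide +kernel
    · rw [Prod.smul_snd]
      have e1 : trim (addMul (2 ^ 13) 1 f3.2 []) = trim (addMul (2 ^ 13) 4097 f0.2 []) := by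
        decide +kernel
      have e2 := congrArg (ofL (2 ^ 13)) e1
      rw [ofL_trim, ofL_trim, ofL_addMul, ofL_addMul] at e2
      simp only [pr]
      rw [zsmul_eq_mul]
      simp only [ofL, add_zero, Nat.cast_one, map_one, one_mul] at e2
      rw [e2]
      norm_num
      rw [show (Polynomial.C 4097 : Polynomial (ZMod (2 ^ 13))) = 4097 from rfl]
  obtain ⟨t, ht⟩ := ker_mp _ _ h6
  refine ⟨t, ?_⟩
  rw [eq_add_of_sub_eq ht, add_comm]
  simp

/-! ### coefficients -/

theorem coeff_sec {R : Type*} [CommRing R] (d : ℕ) (F : PowerSeries R) (n : ℕ) :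
    coeff n (Lam.sec d F) = coeff (2 * n + d) F := by
  rw [Lam.sec, coeff_mk]

theorem index (g : PowerSeries ℤ) (hg : g = (U ^ 2 * (1 - X ^ 2)) ^ 1023 * E 2 g)
    (h0 : coeff 0 g = 1) (r : ℕ) : ∀ s : ℤ × Polynomial ℤ,
    ∃ e : ℕ, (W^[r] s).1 = coeff e (rep g s) := by
  induction r with
  | zero => intro s; exact ⟨0, (const_rep g h0 s).symm⟩
  | succ r ih =>
    intro s
    obtain ⟨e, he⟩ := ih (W s)
    refine ⟨8 * e + 6, ?_⟩
    rw [Function.iterate_succ_apply, he, W_apply, ← sec_rep 1023 g hg 1, ← sec_rep 1023 g hg 1,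
      ← sec_rep 1023 g hg 0, coeff_sec, coeff_sec, coeff_sec]
    congr 1
    simp
    ring

theorem main (B : ℕ) : ∃ (n : ℕ) (q : ℤ), 1 ≤ n ∧ (c 1023 n : ℤ) = 2 ^ 11 * (1 + 2 ^ B * q) := by
  obtain ⟨g, hg', h0⟩ := exists_S (R := ℤ) (b := 2) (by norm_num) 1023
  obtain ⟨r, q, hr⟩ := unbdd W (1, Polynomial.C 1) hW hg (AddMonoidHom.fst ℤ (Polynomial ℤ)) F f
    hF rfl hf B
  obtain ⟨e, he⟩ := index g hg' h0 r f
  refine ⟨64 * e + 34, q, by omega, ?_⟩
  have h1 : (c 1023 (64 * e + 34) : ℤ) = coeff (64 * e + 34) g :=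
    S_spec (b := 2) (by norm_num) 1023 g hg' h0 (64 * e + 34)
  have h2 : coeff e (rep g f) = coeff (64 * e + 34) g := by
    rw [f, ← sec_rep 1023 g hg' 1, ← sec_rep 1023 g hg' 0, ← sec_rep 1023 g hg' 0,
      ← sec_rep 1023 g hg' 0, ← sec_rep 1023 g hg' 1, ← sec_rep 1023 g hg' 0, coeff_sec,
      coeff_sec, coeff_sec, coeff_sec, coeff_sec, coeff_sec]
    have : rep g (1, 0) = g := by rw [rep]; simp
    rw [this]
    congr 1
    simp
    ring
  rw [h1, ← h2, ← he]
  exact hr

/-- Question 1 of the problem has a negative answer, with `k = 5`, that is `m = 1023`: the values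
`u_m(n)`, `n ≥ 1`, are unbounded. -/
theorem result : ∃ k : ℕ, 1 ≤ k ∧ ∀ C : ℕ, ∃ n : ℕ, 1 ≤ n ∧ (C : ℕ∞) < u (2 ^ (2 * k) - 1) n := by
  refine ⟨5, by norm_num, fun C => ?_⟩
  obtain ⟨n, q, hn, hq⟩ := main (C + 1)
  refine ⟨n, hn, ?_⟩
  have hm : 2 ^ (2 * 5) - 1 = 1023 := by norm_num
  rw [hm, u]
  have hpos : (0 : ℤ) ≤ 1 + 2 ^ (C + 1) * q := by
    by_contra hneg
    have : (c 1023 n : ℤ) < 0 := by rw [hq]; nlinarith
    omega
  have hq0 : 0 ≤ q := by
    by_contra hneg
    have h1 : q ≤ -1 := by omega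
    have h2 : (2 : ℤ) ^ (C + 1) ≥ 2 := by
      rw [pow_succ]; have : (1 : ℤ) ≤ 2 ^ C := one_le_pow₀ (by norm_num)
      linarith
    nlinarith
  obtain ⟨k, rfl⟩ := Int.eq_ofNat_of_zero_le hq0
  have h1 : c 1023 n = 2 ^ 11 * (1 + 2 ^ (C + 1) * k) := by exact_mod_cast hq
  have h2 : padicValNat 2 (c 1023 n) = 11 := by
    rw [h1, padicValNat.mul (by norm_num) (by omega), padicValNat.prime_pow,
      padicValNat.eq_zero_of_not_dvd, add_zero]
    intro h
    have h3 : 2 ∣ 2 ^ (C + 1) * k := ⟨2 ^ C * k, by ring⟩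
    omega
  rw [h2, h1, Nat.mul_div_cancel_left _ (by norm_num), Nat.add_sub_cancel_left]
  refine lt_of_lt_of_le ?_ (pow_dvd_iff_le_emultiplicity.mp (Dvd.intro k rfl))
  exact_mod_cast Nat.lt_succ_self C

end Pool.Agent.Results.MP_8a294c_nt.Unbounded
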